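import Mathlib

set_option autoImplicit false

namespace Pool.Agent.Helper601.HK

/-- the squarefree numbers up to `M` coprime to `R` -/
noncomputable def sfR (R : Finset ℕ) (M : ℕ) : Finset ℕ :=
  (Finset.Icc 1 M).filter (fun l => Squarefree l ∧ ∀ r ∈ R, ¬ r ∣ l)

theorem mem_sfR (R : Finset ℕ) (M l : ℕ) : l ∈ sfR R M ↔ (1 ≤ l ∧ l ≤ M) ∧ Squarefree l ∧ ∀ r ∈ R, ¬ r ∣ l := by
  simp [sfR]

theorem sfR_step (R : Finset ℕ) (M p : ℕ) (hp : p.Prime) :
    ∑ l ∈ sfR R M, 1 / (l : ℝ) ≤ (1 + 1 / (p : ℝ)) * ∑ l ∈ sfR (insert p R) M, 1 / (l : ℝ) := by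
  classical
  have hsub : sfR R M ⊆ sfR (insert p R) M ∪ (sfR (insert p R) M).image (fun l => p * l) := by
    intro l hl
    rw [mem_sfR] at hl
    obtain ⟨⟨h1, h2⟩, h3, h4⟩ := hl
    rw [Finset.mem_union]
    by_cases hpl : p ∣ l
    · right
      obtain ⟨k, rfl⟩ := hpl
      refine Finset.mem_image.2 ⟨k, ?_, rfl⟩
      rw [mem_sfR]
      have hk1 : 1 ≤ k := by
        rcases Nat.eq_zero_or_pos k with h | h
        · subst h; simp at h1
        · exact h
      refine ⟨⟨hk1, le_trans (Nat.le_mul_of_pos_left k hp.pos) h2⟩, h3.squarefree_of_dvd (Dvd.intro_left p rfl), ?_⟩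
      intro r hr
      rcases Finset.mem_insert.1 hr with h | h
      · subst h
        intro hd
        have := h3 r (Nat.mul_dvd_mul_left r hd)
        exact hp.one_lt.ne' (Nat.isUnit_iff.1 this)
      · intro hd
        exact h4 r h (Dvd.dvd.mul_left hd p)
    · left
      rw [mem_sfR]
      refine ⟨⟨h1, h2⟩, h3, ?_⟩
      intro r hr
      rcases Finset.mem_insert.1 hr with h | h
      · subst h; exact hpl
      · exact h4 r h
  calc ∑ l ∈ sfR R M, 1 / (l : ℝ) ≤ ∑ l ∈ sfR (insert p R) M ∪ (sfR (insert p R) M).image (fun l => p * l), 1 / (l : ℝ) :=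
        Finset.sum_le_sum_of_subset_of_nonneg hsub (fun _ _ _ => by positivity)
    _ ≤ ∑ l ∈ sfR (insert p R) M, 1 / (l : ℝ) + ∑ l ∈ (sfR (insert p R) M).image (fun l => p * l), 1 / (l : ℝ) := by
        have := Finset.sum_union_inter (s₁ := sfR (insert p R) M) (s₂ := (sfR (insert p R) M).image (fun l => p * l)) (f := fun l => 1 / (l : ℝ))
        have h0 : 0 ≤ ∑ l ∈ sfR (insert p R) M ∩ (sfR (insert p R) M).image (fun l => p * l), 1 / (l : ℝ) :=
          Finset.sum_nonneg (fun _ _ => by positivity)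
        linarith
    _ = (1 + 1 / (p : ℝ)) * ∑ l ∈ sfR (insert p R) M, 1 / (l : ℝ) := by
        rw [Finset.sum_image]
        · rw [add_mul, one_mul, Finset.mul_sum]
          congr 1
          apply Finset.sum_congr rfl
          intro l _
          push_cast
          rw [one_div_mul_one_div]
        · intro a _ b _ hab
          exact Nat.eq_of_mul_eq_mul_left hp.pos hab

theorem sfR_prod (M : ℕ) (R : Finset ℕ) (hR : ∀ r ∈ R, r.Prime) :
    ∑ l ∈ sfR ∅ M, 1 / (l : ℝ) ≤ (∏ r ∈ R, (1 + 1 / (r : ℝ))) * ∑ l ∈ sfR R M, 1 / (l : ℝ) := by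
  classical
  induction R using Finset.induction_on with
  | empty => simp
  | insert p R hp ih =>
    have h1 := ih (fun r hr => hR r (Finset.mem_insert_of_mem hr))
    have h2 := sfR_step R M p (hR p (Finset.mem_insert_self p R))
    rw [Finset.prod_insert hp]
    calc _ ≤ _ := h1
      _ ≤ (∏ r ∈ R, (1 + 1 / (r : ℝ))) * ((1 + 1 / (p : ℝ)) * ∑ l ∈ sfR (insert p R) M, 1 / (l : ℝ)) := by
        apply mul_le_mul_of_nonneg_left h2
        exact Finset.prod_nonneg (fun _ _ => by positivity)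
      _ = _ := by ring

theorem sum_inv_sq_le (M : ℕ) : ∑ b ∈ Finset.Icc 1 M, 1 / ((b : ℝ) ^ 2) ≤ 2 := by
  have key : ∀ n : ℕ, ∑ b ∈ Finset.Icc 1 (n + 1), 1 / ((b : ℝ) ^ 2) ≤ 2 - 1 / ((n : ℝ) + 1) := by
    intro n
    induction n with
    | zero => simp; norm_num
    | succ n ih =>
      rw [Finset.sum_Icc_succ_top (by omega)]
      have hn : (0 : ℝ) ≤ n := Nat.cast_nonneg n
      have h : 1 / (((n + 1 + 1 : ℕ) : ℝ) ^ 2) ≤ 1 / ((n : ℝ) + 1) - 1 / (((n + 1 : ℕ) : ℝ) + 1) := by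
        push_cast
        rw [div_sub_div _ _ (by positivity) (by positivity), div_le_div_iff₀ (by positivity) (by positivity)]
        nlinarith
      linarith
  rcases Nat.eq_zero_or_pos M with h | h
  · subst h; simp
  · obtain ⟨n, rfl⟩ : ∃ n, M = n + 1 := ⟨M - 1, by omega⟩
    have h1 := key n
    have h2 : 0 ≤ 1 / ((n : ℝ) + 1) := by positivity
    linarith

theorem harmonic_le (M : ℕ) : ∑ n ∈ Finset.Icc 1 M, 1 / (n : ℝ) ≤ 2 * ∑ l ∈ sfR ∅ M, 1 / (l : ℝ) := by
  classical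
  have hsub : Finset.Icc 1 M ⊆ ((sfR ∅ M) ×ˢ (Finset.Icc 1 M)).image (fun x => x.2 ^ 2 * x.1) := by
    intro n hn
    rw [Finset.mem_Icc] at hn
    obtain ⟨a, b, hab, ha⟩ := Nat.sq_mul_squarefree n
    have ha1 : 1 ≤ a := by
      rcases Nat.eq_zero_or_pos a with h | h
      · subst h; simp at hab; omega
      · exact h
    have hb1 : 1 ≤ b := by
      rcases Nat.eq_zero_or_pos b with h | h
      · subst h; simp at hab; omega
      · exact h
    refine Finset.mem_image.2 ⟨(a, b), ?_, hab⟩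
    rw [Finset.mem_product, mem_sfR, Finset.mem_Icc]
    refine ⟨⟨⟨ha1, ?_⟩, ha, by simp⟩, hb1, ?_⟩
    · calc a ≤ b ^ 2 * a := Nat.le_mul_of_pos_left a (by positivity)
        _ = n := hab
        _ ≤ M := hn.2
    · calc b ≤ b ^ 2 * a := by
            calc b = b * 1 := (mul_one b).symm
              _ ≤ b * (b * a) := Nat.mul_le_mul_left b (Nat.mul_pos hb1 ha1)
              _ = b ^ 2 * a := by ring
        _ = n := hab
        _ ≤ M := hn.2
  calc ∑ n ∈ Finset.Icc 1 M, 1 / (n : ℝ) ≤ ∑ n ∈ ((sfR ∅ M) ×ˢ (Finset.Icc 1 M)).image (fun x : ℕ × ℕ => (x.2 ^ 2 * x.1 : ℕ)), 1 / ((n : ℕ) : ℝ) :=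
        Finset.sum_le_sum_of_subset_of_nonneg hsub (fun _ _ _ => by positivity)
    _ ≤ ∑ x ∈ (sfR ∅ M) ×ˢ (Finset.Icc 1 M), 1 / (((x.2 ^ 2 * x.1 : ℕ)) : ℝ) := by
        apply Finset.sum_image_le_of_nonneg
        intro _ _
        positivity
    _ = (∑ l ∈ sfR ∅ M, 1 / (l : ℝ)) * ∑ b ∈ Finset.Icc 1 M, 1 / ((b : ℝ) ^ 2) := by
        rw [Finset.sum_mul_sum, Finset.sum_product]
        apply Finset.sum_congr rfl
        intro a _
        apply Finset.sum_congr rfl
        intro b _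
        push_cast
        rw [one_div_mul_one_div, mul_comm]
    _ ≤ (∑ l ∈ sfR ∅ M, 1 / (l : ℝ)) * 2 := by
        apply mul_le_mul_of_nonneg_left (sum_inv_sq_le M)
        exact Finset.sum_nonneg (fun _ _ => by positivity)
    _ = _ := by ring

theorem log_le (N : ℕ) (hN : 1 ≤ N) : (1 / 2) * Real.log N ≤ ∑ n ∈ Finset.Icc 1 (Nat.sqrt N), 1 / (n : ℝ) := by
  have h1 : Real.log ((Nat.sqrt N : ℝ) + 1) ≤ ∑ n ∈ Finset.Icc 1 (Nat.sqrt N), 1 / (n : ℝ) := by
    have h := log_add_one_le_harmonic (Nat.sqrt N)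
    rw [harmonic_eq_sum_Icc] at h
    push_cast at h
    simpa [one_div] using h
  have h2 : (N : ℝ) ≤ ((Nat.sqrt N : ℝ) + 1) ^ 2 := by
    have := Nat.lt_succ_sqrt N
    have h3 : N ≤ (Nat.sqrt N + 1) ^ 2 := by
      rw [sq]; exact le_of_lt this
    exact_mod_cast h3
  have h3 : Real.log N ≤ 2 * Real.log ((Nat.sqrt N : ℝ) + 1) := by
    have h4 := Real.log_le_log (by exact_mod_cast hN) h2
    rw [Real.log_pow] at h4
    exact_mod_cast h4
  linarith

theorem tail_bound (R : Finset ℕ) (g : ℕ → ℝ) (hg : ∀ r ∈ R, 0 ≤ g r) (k : ℕ) :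
    ∏ r ∈ R, (1 + g r) ≤ ∑ B ∈ R.powerset.filter (fun B => B.card ≤ k), ∏ r ∈ B, g r +
      (1 / 2 ^ k) * ∏ r ∈ R, (1 + 2 * g r) := by
  classical
  rw [Finset.prod_one_add, Finset.prod_one_add, ← Finset.sum_filter_add_sum_filter_not R.powerset (fun B => B.card ≤ k)]
  apply add_le_add_right
  calc ∑ B ∈ R.powerset with ¬ B.card ≤ k, ∏ r ∈ B, g r
      ≤ ∑ B ∈ R.powerset with ¬ B.card ≤ k, (1 / 2 ^ k) * ∏ r ∈ B, (2 * g r) := by
        apply Finset.sum_le_sum
        intro B hB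
        rw [Finset.mem_filter, Finset.mem_powerset] at hB
        rw [Finset.prod_mul_distrib, Finset.prod_const, ← mul_assoc]
        have h0 : 0 ≤ ∏ r ∈ B, g r := Finset.prod_nonneg (fun r hr => hg r (hB.1 hr))
        apply le_mul_of_one_le_left h0
        rw [one_div, inv_mul_eq_div, one_le_div (by positivity)]
        exact pow_le_pow_right₀ (by norm_num) (by omega)
    _ ≤ ∑ B ∈ R.powerset, (1 / 2 ^ k) * ∏ r ∈ B, (2 * g r) := by
        apply Finset.sum_le_sum_of_subset_of_nonneg (Finset.filter_subset _ _)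
        intro B hB _
        rw [Finset.mem_powerset] at hB
        apply mul_nonneg (by positivity)
        exact Finset.prod_nonneg (fun r hr => mul_nonneg (by norm_num) (hg r (hB hr)))
    _ = _ := by rw [Finset.mul_sum]

/-- lower bound for the Selberg sum, dimension two at the primes of `R` -/
theorem selberg_lower : ∀ B : ℝ, 0 ≤ B → ∃ m : ℕ, ∀ (R : Finset ℕ) (z N : ℕ),
    (∀ r ∈ R, r.Prime ∧ 3 ≤ r ∧ r ≤ z) → (∑ r ∈ R, 1 / (r : ℝ)) ≤ B → z ^ m ≤ N → 1 ≤ N →
    (1 / 16) * Real.log N * Real.exp (∑ r ∈ R, 1 / (r : ℝ)) ≤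
      ∑ l ∈ (Finset.Icc 1 N).filter Squarefree, ∏ p ∈ l.primeFactors,
        (if p ∈ R then 2 / ((p : ℝ) - 2) else 1 / ((p : ℝ) - 1)) := by
  classical
  intro B hB
  obtain ⟨k, hk⟩ := pow_unbounded_of_one_lt (2 * Real.exp (12 * B)) (by norm_num : (1:ℝ) < 2)
  refine ⟨2 * k, ?_⟩
  intro R z N hR hsum hzN hN
  set M := Nat.sqrt N with hM
  set h : ℕ → ℝ := fun p => if p ∈ R then 2 / ((p : ℝ) - 2) else 1 / ((p : ℝ) - 1) with hh
  have hM1 : 1 ≤ M := by
    rw [hM, Nat.le_sqrt]; simpa using hN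
  have hzM : z ^ k ≤ M := by
    rw [hM, Nat.le_sqrt, ← pow_add, ← two_mul]; exact hzN
  have hMM : M * M ≤ N := Nat.sqrt_le N
  have h2r : ∀ r ∈ R, (3 : ℝ) ≤ r := fun r hr => by exact_mod_cast (hR r hr).2.1
  have hg0 : ∀ r ∈ R, 0 ≤ 2 / ((r : ℝ) - 2) := by
    intro r hr
    have := h2r r hr
    apply div_nonneg (by norm_num)
    linarith
  -- the second factor
  set S2 := ∑ C ∈ R.powerset.filter (fun C => C.card ≤ k), ∏ r ∈ C, (2 / ((r : ℝ) - 2)) with hS2
  have hS2b : (1 / 2) * ∏ r ∈ R, (1 + 2 / ((r : ℝ) - 2)) ≤ S2 := by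
    have h1 := tail_bound R (fun r => 2 / ((r : ℝ) - 2)) hg0 k
    have h2 : ∏ r ∈ R, (1 + 2 * (2 / ((r : ℝ) - 2))) ≤ Real.exp (12 * B) := by
      calc ∏ r ∈ R, (1 + 2 * (2 / ((r : ℝ) - 2))) ≤ ∏ r ∈ R, Real.exp (12 * (1 / (r : ℝ))) := by
            apply Finset.prod_le_prod
            · intro r hr
              have := hg0 r hr
              positivity
            · intro r hr
              have h3 := h2r r hr
              calc 1 + 2 * (2 / ((r : ℝ) - 2)) ≤ 1 + 12 * (1 / (r : ℝ)) := by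
                    have : 2 / ((r : ℝ) - 2) ≤ 6 * (1 / (r : ℝ)) := by
                      rw [mul_one_div, div_le_div_iff₀ (by linarith) (by linarith)]
                      linarith
                    linarith
                _ ≤ _ := by
                    have := Real.add_one_le_exp (12 * (1 / (r : ℝ)))
                    linarith
        _ = Real.exp (12 * ∑ r ∈ R, 1 / (r : ℝ)) := by
            rw [← Real.exp_sum, Finset.mul_sum]
        _ ≤ _ := Real.exp_le_exp.2 (by linarith)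
    have h3 : (1 / 2 ^ k) * ∏ r ∈ R, (1 + 2 * (2 / ((r : ℝ) - 2))) ≤ 1 / 2 := by
      calc (1 / 2 ^ k) * ∏ r ∈ R, (1 + 2 * (2 / ((r : ℝ) - 2))) ≤ (1 / 2 ^ k) * Real.exp (12 * B) :=
            mul_le_mul_of_nonneg_left h2 (by positivity)
        _ ≤ 1 / 2 := by
            rw [one_div_mul_eq_div, div_le_div_iff₀ (by positivity) (by norm_num)]
            linarith
    have h4 : (1 : ℝ) ≤ ∏ r ∈ R, (1 + 2 / ((r : ℝ) - 2)) := by
      calc (1 : ℝ) = ∏ r ∈ R, (1 : ℝ) := by simp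
        _ ≤ _ := Finset.prod_le_prod (fun _ _ => by norm_num) (fun r hr => by
          have := hg0 r hr
          linarith)
    linarith
  -- the first factor
  set S1 := ∑ l ∈ sfR R M, ∏ p ∈ l.primeFactors, h p with hS1
  have hhR : ∀ r ∈ R, h r = 2 / ((r : ℝ) - 2) := fun r hr => by simp [hh, hr]
  have hh0 : ∀ p : ℕ, p.Prime → 0 ≤ h p := by
    intro p hp
    by_cases hpR : p ∈ R
    · rw [hhR p hpR]; exact hg0 p hpR
    · have : (2 : ℝ) ≤ p := by exact_mod_cast hp.two_le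
      simp only [hh, hpR, if_false]
      apply div_nonneg (by norm_num)
      linarith
  have hS1b : ∑ l ∈ sfR R M, 1 / (l : ℝ) ≤ S1 := by
    apply Finset.sum_le_sum
    intro l hl
    rw [mem_sfR] at hl
    obtain ⟨⟨h1, h2⟩, h3, h4⟩ := hl
    have h5 : (l : ℝ) = ∏ p ∈ l.primeFactors, (p : ℝ) := by
      rw [← Nat.cast_prod, Nat.prod_primeFactors_of_squarefree h3]
    rw [h5, one_div, ← Finset.prod_inv_distrib]
    have h5' : ∀ p ∈ l.primeFactors, ((p : ℝ))⁻¹ ≤ h p := by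
      intro p hp
      have hpp := Nat.prime_of_mem_primeFactors hp
      have hpR : p ∉ R := fun hpR => h4 p hpR (Nat.dvd_of_mem_primeFactors hp)
      have : (2 : ℝ) ≤ p := by exact_mod_cast hpp.two_le
      simp only [hh, hpR, if_false]
      rw [← one_div, div_le_div_iff₀ (by linarith) (by linarith)]
      linarith
    exact Finset.prod_le_prod (fun p hp => by positivity) h5'
  have hS1c : (1 / 4) * Real.log N ≤ (∏ r ∈ R, (1 + 1 / (r : ℝ))) * S1 := by
    have h1 := log_le N hN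
    have h2 := harmonic_le M
    have h3 := sfR_prod M R (fun r hr => (hR r hr).1)
    have h4 : (∏ r ∈ R, (1 + 1 / (r : ℝ))) * ∑ l ∈ sfR R M, 1 / (l : ℝ) ≤ (∏ r ∈ R, (1 + 1 / (r : ℝ))) * S1 :=
      mul_le_mul_of_nonneg_left hS1b (Finset.prod_nonneg (fun _ _ => by positivity))
    linarith
  -- the injection
  have hmain : S1 * S2 ≤ ∑ l ∈ (Finset.Icc 1 N).filter Squarefree, ∏ p ∈ l.primeFactors, h p := by
    rw [hS1, hS2, Finset.sum_mul_sum, ← Finset.sum_product']
    set T := sfR R M ×ˢ R.powerset.filter (fun C => C.card ≤ k) with hT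
    have hprops : ∀ x ∈ T, (x.1 ≠ 0) ∧ (∏ r ∈ x.2, r ≠ 0) ∧ (∏ r ∈ x.2, r).primeFactors = x.2 ∧
        Disjoint x.1.primeFactors x.2 ∧ Disjoint x.1.primeFactors R ∧ x.2 ⊆ R ∧ Squarefree (x.1 * ∏ r ∈ x.2, r) ∧ x.1 * ∏ r ∈ x.2, r ≤ N := by
      rintro ⟨l, C⟩ hx
      rw [hT, Finset.mem_product, mem_sfR, Finset.mem_filter, Finset.mem_powerset] at hx
      obtain ⟨⟨⟨h1, h2⟩, h3, h4⟩, h5, h6⟩ := hx
      dsimp only at *
      have hCp : ∀ r ∈ C, r.Prime := fun r hr => (hR r (h5 hr)).1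
      have hpf : (∏ r ∈ C, r).primeFactors = C := Nat.primeFactors_prod hCp
      have hC0 : ∏ r ∈ C, r ≠ 0 := Finset.prod_ne_zero_iff.2 (fun r hr => (hCp r hr).ne_zero)
      have hdR : Disjoint l.primeFactors R := by
        rw [Finset.disjoint_left]
        intro p hp hpR
        exact h4 p hpR (Nat.dvd_of_mem_primeFactors hp)
      have hdC : Disjoint l.primeFactors C := Finset.disjoint_of_subset_right h5 hdR
      have hcop : Nat.Coprime l (∏ r ∈ C, r) := by
        rw [← Nat.disjoint_primeFactors (by omega) hC0, hpf]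
        exact hdC
      refine ⟨by omega, hC0, hpf, hdC, hdR, h5, ?_, ?_⟩
      · rw [Nat.squarefree_mul hcop]
        refine ⟨h3, ?_⟩
        exact Finset.squarefree_prod_of_pairwise_isCoprime (fun a ha b hb hab => by
              have := (Nat.coprime_primes (hCp a ha) (hCp b hb)).2 hab
              exact Nat.coprime_iff_isRelPrime.1 this) (fun r hr => (hCp r hr).squarefree)
      · have hCle : ∏ r ∈ C, r ≤ M := by
          rcases C.eq_empty_or_nonempty with he | ⟨r0, hr0⟩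
          · subst he; simpa using hM1
          · have hz1 : 1 ≤ z := le_trans (by norm_num) (le_trans (hR r0 (h5 hr0)).2.1 (hR r0 (h5 hr0)).2.2)
            calc ∏ r ∈ C, r ≤ z ^ C.card := Finset.prod_le_pow_card C _ z (fun r hr => (hR r (h5 hr)).2.2)
              _ ≤ z ^ k := Nat.pow_le_pow_right hz1 h6
              _ ≤ M := hzM
        exact le_trans (Nat.mul_le_mul h2 hCle) hMM
    have hinj : Set.InjOn (fun x : ℕ × Finset ℕ => x.1 * ∏ r ∈ x.2, r) T := by
      intro x hx y hy hxy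
      obtain ⟨x0, xC0, xpf, xd, xdR, xR, -, -⟩ := hprops x hx
      obtain ⟨y0, yC0, ypf, yd, ydR, yR, -, -⟩ := hprops y hy
      have hxy' : x.1 * ∏ r ∈ x.2, r = y.1 * ∏ r ∈ y.2, r := hxy
      have e1 : (x.1 * ∏ r ∈ x.2, r).primeFactors ∩ R = x.2 := by
        rw [Nat.primeFactors_mul x0 xC0, xpf, Finset.union_inter_distrib_right,
          Finset.disjoint_iff_inter_eq_empty.1 xdR, Finset.empty_union, Finset.inter_eq_left]
        exact xR
      have e2 : (y.1 * ∏ r ∈ y.2, r).primeFactors ∩ R = y.2 := by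
        rw [Nat.primeFactors_mul y0 yC0, ypf, Finset.union_inter_distrib_right,
          Finset.disjoint_iff_inter_eq_empty.1 ydR, Finset.empty_union, Finset.inter_eq_left]
        exact yR
      have e3 : x.2 = y.2 := by rw [← e1, ← e2, hxy']
      have e4 : x.1 = y.1 := by
        rw [e3] at hxy'
        exact Nat.eq_of_mul_eq_mul_right (Nat.pos_of_ne_zero yC0) hxy'
      exact Prod.ext e4 e3
    calc ∑ x ∈ T, (∏ p ∈ x.1.primeFactors, h p) * (∏ r ∈ x.2, (2 / ((r : ℝ) - 2)))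
        = ∑ x ∈ T, ∏ p ∈ (x.1 * ∏ r ∈ x.2, r).primeFactors, h p := by
          apply Finset.sum_congr rfl
          intro x hx
          obtain ⟨x0, xC0, xpf, xd, xdR, xR, -, -⟩ := hprops x hx
          rw [Nat.primeFactors_mul x0 xC0, xpf, Finset.prod_union xd]
          congr 1
          apply Finset.prod_congr rfl
          intro r hr
          rw [hhR r (xR hr)]
      _ = ∑ l ∈ T.image (fun x => x.1 * ∏ r ∈ x.2, r), ∏ p ∈ l.primeFactors, h p := by
          rw [Finset.sum_image hinj]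
      _ ≤ _ := by
          apply Finset.sum_le_sum_of_subset_of_nonneg
          · intro l hl
            obtain ⟨x, hx, rfl⟩ := Finset.mem_image.1 hl
            obtain ⟨x0, xC0, xpf, xd, xdR, xR, xs, xN⟩ := hprops x hx
            rw [Finset.mem_filter, Finset.mem_Icc]
            exact ⟨⟨Nat.pos_of_ne_zero (mul_ne_zero x0 xC0), xN⟩, xs⟩
          · intro l hl _
            exact Finset.prod_nonneg (fun p hp => hh0 p (Nat.prime_of_mem_primeFactors hp))
  -- the comparison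
  have hcmp : Real.exp (∑ r ∈ R, 1 / (r : ℝ)) * ∏ r ∈ R, (1 + 1 / (r : ℝ)) ≤ ∏ r ∈ R, (1 + 2 / ((r : ℝ) - 2)) := by
    rw [Real.exp_sum, ← Finset.prod_mul_distrib]
    apply Finset.prod_le_prod
    · intro r _
      positivity
    · intro r hr
      have h3 := h2r r hr
      have h4 : Real.exp (1 / (r : ℝ)) ≤ r / (r - 1) := by
        have h5 := Real.one_sub_le_exp_neg (1 / (r : ℝ))
        rw [Real.exp_neg] at h5
        have h6 : (0 : ℝ) < 1 - 1 / (r : ℝ) := by
          rw [sub_pos, div_lt_one (by linarith)]; linarith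
        have h7 := (le_inv_comm₀ h6 (Real.exp_pos _)).1 h5
        calc Real.exp (1 / (r : ℝ)) ≤ (1 - 1 / (r : ℝ))⁻¹ := h7
          _ = r / (r - 1) := by
            have : (r : ℝ) ≠ 0 := by linarith
            have h8 : (r : ℝ) - 1 ≠ 0 := by linarith
            field_simp
      calc Real.exp (1 / (r : ℝ)) * (1 + 1 / (r : ℝ)) ≤ (r / (r - 1)) * (1 + 1 / (r : ℝ)) :=
            mul_le_mul_of_nonneg_right h4 (by positivity)
        _ = (r + 1) / (r - 1) := by
            have : (r : ℝ) ≠ 0 := by linarith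
            have h8 : (r : ℝ) - 1 ≠ 0 := by linarith
            field_simp
        _ ≤ r / (r - 2) := by
            rw [div_le_div_iff₀ (by linarith) (by linarith)]
            nlinarith
        _ = 1 + 2 / ((r : ℝ) - 2) := by
            have h8 : (r : ℝ) - 2 ≠ 0 := by linarith
            field_simp
            ring
  have hP1 : 0 < ∏ r ∈ R, (1 + 1 / (r : ℝ)) := Finset.prod_pos (fun _ _ => by positivity)
  have hlog : 0 ≤ Real.log N := Real.log_nonneg (by exact_mod_cast hN)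
  have hS10 : 0 ≤ S1 := Finset.sum_nonneg (fun l _ => Finset.prod_nonneg (fun p hp => hh0 p (Nat.prime_of_mem_primeFactors hp)))
  calc (1 / 16) * Real.log N * Real.exp (∑ r ∈ R, 1 / (r : ℝ))
      ≤ (1 / 8) * Real.log N * Real.exp (∑ r ∈ R, 1 / (r : ℝ)) := by
        apply mul_le_mul_of_nonneg_right _ (Real.exp_pos _).le
        linarith
    _ = (1 / 2) * (((1 / 4) * Real.log N) * Real.exp (∑ r ∈ R, 1 / (r : ℝ))) := by ring
    _ ≤ (1 / 2) * (((∏ r ∈ R, (1 + 1 / (r : ℝ))) * S1) * Real.exp (∑ r ∈ R, 1 / (r : ℝ))) := by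
        apply mul_le_mul_of_nonneg_left _ (by norm_num)
        exact mul_le_mul_of_nonneg_right hS1c (Real.exp_pos _).le
    _ = S1 * ((1 / 2) * (Real.exp (∑ r ∈ R, 1 / (r : ℝ)) * ∏ r ∈ R, (1 + 1 / (r : ℝ)))) := by ring
    _ ≤ S1 * ((1 / 2) * ∏ r ∈ R, (1 + 2 / ((r : ℝ) - 2))) := by
        apply mul_le_mul_of_nonneg_left _ hS10
        linarith
    _ ≤ S1 * S2 := mul_le_mul_of_nonneg_left hS2b hS10
    _ ≤ _ := hmain

end Pool.Agent.Helper601.HK
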